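import Pool.Agent.Helper46.HS.Base
import Pool.Agent.Helper82.HP.Past

/-!
# Stationary contractions: the conditional law given the past has no atoms, or `X` is a function of the past
-/

set_option autoImplicit false

namespace Pool.Agent.Helper82.HS

open MeasureTheory Set Filter Topology ProbabilityTheory
open Pool.Agent.Helper46.HS
open Pool.Agent.Helper82.HP (int_key integrable_inner measurable_kernel_atom measurable_kernel_atom' measurable_atom
  atoms_symm sq_diff integrable_atom)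

variable {Ω : Type*} [MeasurableSpace Ω] {E : Type*} [MeasurableSpace E] {μ : Measure Ω} {p q C r K ε : ℝ}
  {T : Ω ≃ᵐ Ω} {ξ : Ω → E} {φ φ' : E → ℝ → ℝ} {X : Ω → ℝ}

/-- the tail of a past -/
def tl (s : ℕ → E) : ℕ → E := fun j => s (j + 1)

theorem measurable_tl : Measurable (tl (E := E)) := by
  unfold tl
  fun_prop

theorem tl_pst (T : Ω ≃ᵐ Ω) (ξ : Ω → E) (ω : Ω) : tl (pst T ξ (T ω)) = pst T ξ ω := by
  funext j
  exact pst_succ T ξ ω j

theorem hk_kap (hS : Prc μ p q T ξ φ X) [IsProbabilityMeasure μ] :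
    (μ.map (pst T ξ)) ⊗ₘ kap μ T ξ X = μ.map (fun ω => (pst T ξ ω, X ω)) :=
  compProd_map_condDistrib (mβ := MeasurableSpace.pi) hS.hXm.aemeasurable

/-- the conditional laws live on `[p, q]` -/
theorem kap_supp (hS : Prc μ p q T ξ φ X) [IsProbabilityMeasure μ] :
    ∀ᵐ ω ∂μ, kap μ T ξ X (pst T ξ ω) (Icc p q)ᶜ = 0 := by
  have hms : MeasurableSet (Icc p q)ᶜ := measurableSet_Icc.compl
  have hgm : Measurable fun z : (ℕ → E) × ℝ => (Icc p q)ᶜ.indicator (fun _ => (1 : ℝ)) z.2 :=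
    (measurable_const.indicator hms).comp measurable_snd
  have hg1 : ∀ z : (ℕ → E) × ℝ, |(Icc p q)ᶜ.indicator (fun _ => (1 : ℝ)) z.2| ≤ 1 := fun z => by
    simp only [Set.indicator]
    split_ifs <;> simp
  have h1 : ∫ ω, ∫ y, ((Icc p q)ᶜ.indicator (fun _ => (1 : ℝ)) y) ∂(kap μ T ξ X (pst T ξ ω)) ∂μ = 0 := by
    have h2 := int_key hS.mpst hS.hXm (hk_kap hS) hgm hg1
    rw [h2]
    rw [← integral_zero Ω ℝ (μ := μ)]
    refine integral_congr_ae (Eventually.of_forall fun ω => ?_)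
    simp only [Set.indicator]
    rw [if_neg]
    exact fun h => h (hS.hXI ω)
  have h2 : ∀ ω, 0 ≤ ∫ y, ((Icc p q)ᶜ.indicator (fun _ => (1 : ℝ)) y) ∂(kap μ T ξ X (pst T ξ ω)) := fun ω =>
    integral_nonneg fun y => Set.indicator_nonneg (fun _ _ => zero_le_one) _
  have h3 := (integral_eq_zero_iff_of_nonneg h2 (integrable_inner hS.mpst (kap μ T ξ X) hgm hg1)).1 h1
  filter_upwards [h3] with ω hω
  have h4 : ∫ y, ((Icc p q)ᶜ.indicator (fun _ => (1 : ℝ)) y) ∂(kap μ T ξ X (pst T ξ ω)) = 0 := hω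
  rw [integral_indicator_const _ hms, smul_eq_mul, mul_one, measureReal_def, ENNReal.toReal_eq_zero_iff] at h4
  exact h4.resolve_right (measure_ne_top _ _)

/-- the atoms of the conditional laws do not change when one more label is revealed -/
theorem atoms_step (hC : Con p q φ φ' C r K ε) (hS : Prc μ p q T ξ φ X) [IsProbabilityMeasure μ] :
    ∀ᵐ ω ∂μ, (∀ y ∈ Icc p q, (kap μ T ξ X (pst T ξ (T ω))).real {y} = (kap μ T ξ X (pst T ξ ω)).real {φ (ξ ω) y}) ∧
      ∀ x, (kap μ T ξ X (pst T ξ ω)).real {x} ≠ 0 → ∃ y ∈ Icc p q, x = φ (ξ ω) y := by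
  have hT := hS.hT
  have hpast := hS.mpst
  have hX := hS.hXm
  have hk := hk_kap hS
  have hφx : ∀ x, Measurable (φ x) := fun x => hS.hφ.comp (measurable_const.prodMk measurable_id)
  set κ := kap μ T ξ X with hκ
  -- the functions
  set a : (ℕ → E) × ℝ → ℝ := fun z => (κ z.1).real {z.2} with ha
  have ham : Measurable a := measurable_kernel_atom κ
  have ha1 : ∀ z, |a z| ≤ 1 := fun z => by
    rw [ha, abs_of_nonneg measureReal_nonneg]
    exact measureReal_le_one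
  set g : (ℕ → E) × ℝ → ℝ := fun z => (κ (tl z.1)).real {φ (z.1 0) z.2} with hg
  have hgm : Measurable g := by
    refine measurable_kernel_atom' κ (measurable_tl.comp measurable_fst) ?_
    have h1 : Measurable fun z : (ℕ → E) × ℝ => (z.1 0, z.2) :=
      ((measurable_pi_apply 0).comp measurable_fst).prodMk measurable_snd
    exact hS.hφ.comp h1
  have hg1 : ∀ z, |g z| ≤ 1 := fun z => by
    rw [hg, abs_of_nonneg measureReal_nonneg]
    exact measureReal_le_one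
  set F : Ω → ℝ := fun ω => ∫ y, a (pst T ξ ω, y) ∂(κ (pst T ξ ω)) with hF
  set G : Ω → ℝ := fun ω => ∫ y, g (pst T ξ ω, y) ∂(κ (pst T ξ ω)) with hG
  have hFi : Integrable F μ := integrable_inner hpast κ ham ha1
  have hGi : Integrable G μ := integrable_inner hpast κ hgm hg1
  have hFA : ∫ ω, F ω ∂μ = ∫ ω, a (pst T ξ ω, X ω) ∂μ := int_key hpast hX hk ham ha1
  have hGA : ∫ ω, G ω ∂μ = ∫ ω, g (pst T ξ ω, X ω) ∂μ := int_key hpast hX hk hgm hg1
  have hinv : ∀ f : Ω → ℝ, AEStronglyMeasurable f μ → ∫ ω, f (T ω) ∂μ = ∫ ω, f ω ∂μ := by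
    intro f hf
    have h1 : ∫ ω, f ω ∂(μ.map T) = ∫ ω, f (T ω) ∂μ := integral_map hT.measurable.aemeasurable (by rwa [hT.map_eq])
    rw [hT.map_eq] at h1
    exact h1.symm
  have hgT : ∀ ω, g (pst T ξ (T ω), X (T ω)) = a (pst T ξ ω, X ω) := by
    intro ω
    show (κ (tl (pst T ξ (T ω)))).real {φ (pst T ξ (T ω) 0) (X (T ω))} = (κ (pst T ξ ω)).real {X ω}
    rw [tl_pst, pst_zero, ← hS.hX]
  have hGA2 : ∫ ω, G ω ∂μ = ∫ ω, F ω ∂μ := by
    rw [hGA, hFA, ← hinv (fun ω => g (pst T ξ ω, X ω)) (hgm.comp (hpast.prodMk hX)).aestronglyMeasurable]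
    exact integral_congr_ae (Eventually.of_forall hgT)
  -- the laws
  set ν : Ω → Measure ℝ := fun ω => (κ (pst T ξ (T ω))).map (φ (ξ ω)) with hν
  have hνp : ∀ ω, IsProbabilityMeasure (ν ω) := fun ω => Measure.isProbabilityMeasure_map (hφx _).aemeasurable
  have hsupp : ∀ᵐ ω ∂μ, κ (pst T ξ (T ω)) (Icc p q)ᶜ = 0 :=
    hT.quasiMeasurePreserving.ae (kap_supp hS)
  have hνat : ∀ ω, κ (pst T ξ (T ω)) (Icc p q)ᶜ = 0 → ∀ y ∈ Icc p q, (ν ω).real {φ (ξ ω) y} = (κ (pst T ξ (T ω))).real {y} := by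
    intro ω hω y hy
    rw [hν, map_measureReal_apply (hφx _) (measurableSet_singleton _)]
    rw [measureReal_def, measureReal_def]
    congr 1
    refine le_antisymm ?_ (measure_mono fun z hz => by
      rw [mem_singleton_iff] at hz
      rw [hz]
      exact mem_singleton _)
    have h1 : φ (ξ ω) ⁻¹' {φ (ξ ω) y} ⊆ {y} ∪ (Icc p q)ᶜ := by
      intro z hz
      by_cases hzI : z ∈ Icc p q
      · left
        by_contra hne
        exact hC.inj (ξ ω) hzI hy hne hz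
      · exact Or.inr hzI
    refine (measure_mono h1).trans ((measure_union_le _ _).trans ?_)
    rw [hω, add_zero]
  have hνout : ∀ ω, κ (pst T ξ (T ω)) (Icc p q)ᶜ = 0 → ∀ x, (ν ω).real {x} ≠ 0 → ∃ y ∈ Icc p q, x = φ (ξ ω) y := by
    intro ω hω x hx
    by_contra hcon
    push Not at hcon
    apply hx
    rw [hν, map_measureReal_apply (hφx _) (measurableSet_singleton _), measureReal_def]
    have h1 : φ (ξ ω) ⁻¹' {x} ⊆ (Icc p q)ᶜ := by
      intro z hz hzI
      exact hcon z hzI hz.symm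
    rw [measure_mono_null h1 hω]
    rfl
  have hν1 : ∀ ω, κ (pst T ξ (T ω)) (Icc p q)ᶜ = 0 → ∫ x, (ν ω).real {x} ∂(ν ω) = F (T ω) := by
    intro ω hω
    show ∫ x, (ν ω).real {x} ∂((κ (pst T ξ (T ω))).map (φ (ξ ω))) = _
    rw [integral_map (hφx _).aemeasurable (measurable_atom _).aestronglyMeasurable]
    refine integral_congr_ae ?_
    have h1 : ∀ᵐ y ∂(κ (pst T ξ (T ω))), y ∈ Icc p q := hω
    filter_upwards [h1] with y hy
    exact hνat ω hω y hy
  have hν2 : ∀ ω, ∫ x, (κ (pst T ξ ω)).real {x} ∂(ν ω) = G (T ω) := by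
    intro ω
    show ∫ x, (κ (pst T ξ ω)).real {x} ∂((κ (pst T ξ (T ω))).map (φ (ξ ω))) = _
    rw [integral_map (hφx _).aemeasurable (measurable_atom _).aestronglyMeasurable]
    refine integral_congr_ae (Eventually.of_forall fun y => ?_)
    show (κ (pst T ξ ω)).real {φ (ξ ω) y} = (κ (tl (pst T ξ (T ω)))).real {φ (pst T ξ (T ω) 0) y}
    rw [tl_pst, pst_zero]
  -- the square
  set D : Ω → ℝ := fun ω => F (T ω) - G (T ω) - G (T ω) + F ω with hD
  have hDe : ∀ ω, κ (pst T ξ (T ω)) (Icc p q)ᶜ = 0 → D ω = ∫ x, (ν ω).real {x} ∂(ν ω) -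
      ∫ x, (κ (pst T ξ ω)).real {x} ∂(ν ω) -
      ∫ x, (ν ω).real {x} ∂(κ (pst T ξ ω)) + ∫ x, (κ (pst T ξ ω)).real {x} ∂(κ (pst T ξ ω)) := by
    intro ω hω
    rw [atoms_symm (κ (pst T ξ ω)) (ν ω), hν1 ω hω, hν2]
  have hD0 : 0 ≤ᵐ[μ] D := by
    filter_upwards [hsupp] with ω hω
    rw [hDe ω hω]
    exact (sq_diff (ν ω) (κ (pst T ξ ω))).1
  have hFT : Integrable (fun ω => F (T ω)) μ := hT.integrable_comp_of_integrable hFi
  have hGT : Integrable (fun ω => G (T ω)) μ := hT.integrable_comp_of_integrable hGi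
  have hDi : Integrable D μ := ((hFT.sub hGT).sub hGT).add hFi
  have hDz : ∫ ω, D ω ∂μ = 0 := by
    show ∫ ω, ((F (T ω) - G (T ω) - G (T ω)) + F ω) ∂μ = 0
    rw [integral_add (f := fun ω => F (T ω) - G (T ω) - G (T ω)) ((hFT.sub hGT).sub hGT) hFi,
      integral_sub (f := fun ω => F (T ω) - G (T ω)) (hFT.sub hGT) hGT, integral_sub hFT hGT,
      hinv F hFi.aestronglyMeasurable, hinv G hGi.aestronglyMeasurable, hGA2]
    ring
  have hae := (integral_eq_zero_iff_of_nonneg_ae hD0 hDi).1 hDz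
  filter_upwards [hae, hsupp] with ω hω hω2
  have h1 : D ω = 0 := hω
  rw [hDe ω hω2] at h1
  have h2 := (sq_diff (ν ω) (κ (pst T ξ ω))).2 h1
  refine ⟨fun y hy => ?_, fun x hx => ?_⟩
  · rw [← hνat ω hω2 y hy]
    exact h2 _
  · rw [← h2 x] at hx
    exact hνout ω hω2 x hx

/-- after `k` steps -/
theorem atoms_iter (hC : Con p q φ φ' C r K ε) (hS : Prc μ p q T ξ φ X) [IsProbabilityMeasure μ] :
    ∀ᵐ ω ∂μ, ∀ k : ℕ, ∀ x, (kap μ T ξ X (pst T ξ ω)).real {x} ≠ 0 →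
      ∃ y ∈ Icc p q, x = pcm φ (pst T ξ (T^[k] ω)) k y ∧ (kap μ T ξ X (pst T ξ (T^[k] ω))).real {y} ≠ 0 := by
  have hall : ∀ᵐ ω ∂μ, ∀ k : ℕ, (∀ y ∈ Icc p q, (kap μ T ξ X (pst T ξ (T (T^[k] ω)))).real {y} =
      (kap μ T ξ X (pst T ξ (T^[k] ω))).real {φ (ξ (T^[k] ω)) y}) ∧
      ∀ x, (kap μ T ξ X (pst T ξ (T^[k] ω))).real {x} ≠ 0 → ∃ y ∈ Icc p q, x = φ (ξ (T^[k] ω)) y := by
    rw [ae_all_iff]
    intro k
    exact (hS.hT.iterate k).quasiMeasurePreserving.ae (atoms_step hC hS)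
  have h0 : ∀ᵐ ω ∂μ, kap μ T ξ X (pst T ξ ω) (Icc p q)ᶜ = 0 := kap_supp hS
  filter_upwards [hall, h0] with ω hω h0 k
  induction k with
  | zero =>
    intro x hx
    refine ⟨x, ?_, rfl, hx⟩
    by_contra hxI
    apply hx
    rw [measureReal_def, measure_mono_null (t := (Icc p q)ᶜ) (by
      intro z hz
      rw [mem_singleton_iff.1 hz]
      exact hxI) h0]
    rfl
  | succ k ih =>
    intro x hx
    obtain ⟨y, _, hxy, hy0⟩ := ih x hx
    obtain ⟨h1, h2⟩ := hω k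
    obtain ⟨y', hy', hyy⟩ := h2 y hy0
    refine ⟨y', hy', ?_, ?_⟩
    · rw [Function.iterate_succ_apply', pcm_T, ← hyy]
      exact hxy
    · rw [Function.iterate_succ_apply', h1 y' hy', ← hyy]
      exact hy0

/-- the dichotomy -/
theorem nonatomic_or_past (hC : Con p q φ φ' C r K ε) (hS : Prc μ p q T ξ φ X) [IsProbabilityMeasure μ]
    (hE : Ergodic T μ) : (∀ᵐ ω ∂μ, ∀ x : ℝ, kap μ T ξ X (pst T ξ ω) {x} = 0) ∨
      ∃ f : (ℕ → E) → ℝ, Measurable f ∧ X =ᵐ[μ] fun ω => f (pst T ξ ω) := by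
  have hpast := hS.mpst
  have hX := hS.hXm
  have hk := hk_kap hS
  have hstep := atoms_step hC hS
  have hiter := atoms_iter hC hS
  set κ := kap μ T ξ X with hκ
  set a : (ℕ → E) × ℝ → ℝ := fun z => (κ z.1).real {z.2} with ha
  have ham : Measurable a := measurable_kernel_atom κ
  have ha0 : ∀ z, 0 ≤ a z := fun z => measureReal_nonneg
  have ha1 : ∀ z, |a z| ≤ 1 := fun z => by
    rw [ha, abs_of_nonneg measureReal_nonneg]
    exact measureReal_le_one
  -- invariance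
  set w : Ω → ℝ := fun ω => a (pst T ξ ω, X ω) with hw
  have hwm : Measurable w := ham.comp (hpast.prodMk hX)
  have hwT : w ∘ T =ᵐ[μ] w := by
    filter_upwards [hstep] with ω hω
    show (κ (pst T ξ (T ω))).real {X (T ω)} = (κ (pst T ξ ω)).real {X ω}
    rw [hω.1 _ (hS.hXI _), ← hS.hX]
  obtain ⟨c, hc⟩ := hE.ae_eq_const_of_ae_eq_comp_ae hwm.aestronglyMeasurable hwT
  have hc0 : 0 ≤ c := by
    obtain ⟨ω, hω⟩ := hc.exists
    rw [Function.const_apply] at hω
    rw [← hω]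
    exact ha0 _
  have hkey := int_key hpast hX hk ham ha1
  have hwc : ∫ ω, w ω ∂μ = c := by
    rw [integral_congr_ae hc]
    simp
  rcases hc0.eq_or_lt with hcz | hcpos
  · left
    have h1 : ∫ ω, ∫ y, a (pst T ξ ω, y) ∂(κ (pst T ξ ω)) ∂μ = 0 := by
      rw [hkey]
      exact hwc.trans hcz.symm
    have h2 : ∀ ω, 0 ≤ ∫ y, a (pst T ξ ω, y) ∂(κ (pst T ξ ω)) := fun ω => integral_nonneg fun y => ha0 _
    have h3 := (integral_eq_zero_iff_of_nonneg h2 (integrable_inner hpast κ ham ha1)).1 h1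
    filter_upwards [h3] with ω hω x
    have h4 : ∫ y, a (pst T ξ ω, y) ∂(κ (pst T ξ ω)) = 0 := hω
    have hint : Integrable (fun y => a (pst T ξ ω, y)) (κ (pst T ξ ω)) := integrable_atom (κ (pst T ξ ω)) (κ (pst T ξ ω))
    have h5 : ∫ y in {x}, a (pst T ξ ω, y) ∂(κ (pst T ξ ω)) ≤ ∫ y, a (pst T ξ ω, y) ∂(κ (pst T ξ ω)) :=
      setIntegral_le_integral hint (Eventually.of_forall fun y => ha0 _)
    rw [integral_singleton, h4, smul_eq_mul] at h5
    have h6 : (κ (pst T ξ ω)).real {x} * (κ (pst T ξ ω)).real {x} ≤ 0 := h5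
    have h7 : (κ (pst T ξ ω)).real {x} = 0 := by nlinarith [measureReal_nonneg (μ := κ (pst T ξ ω)) (s := {x})]
    rw [measureReal_def, ENNReal.toReal_eq_zero_iff] at h7
    exact h7.resolve_right (measure_ne_top _ _)
  · right
    -- the only atom
    have honly : ∀ᵐ ω ∂μ, ∀ x, x ≠ X ω → (κ (pst T ξ ω)).real {x} = 0 := by
      filter_upwards [hiter] with ω h1 x hx
      by_contra hne
      have h3 : ∀ k : ℕ, |x - X ω| ≤ C * r ^ k := by
        intro k
        obtain ⟨y, hy, hxy, _⟩ := h1 k x hne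
        rw [hxy, hS.X_eq k ω]
        exact hC.pcm_small _ k hy (hS.hXI _)
      have h4 : Tendsto (fun k : ℕ => C * r ^ k) atTop (𝓝 0) := by
        have := (tendsto_pow_atTop_nhds_zero_of_lt_one hC.hr0.le hC.hr1).const_mul C
        rwa [mul_zero] at this
      have h5 : |x - X ω| ≤ 0 := ge_of_tendsto' h4 h3
      have h6 : x - X ω = 0 := abs_nonpos_iff.1 h5
      exact hx (by linarith)
    -- the function
    refine ⟨fun s => (c ^ 2)⁻¹ * ∫ y, y * a (s, y) ∂(κ s), ?_, ?_⟩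
    · have hm : Measurable fun z : (ℕ → E) × ℝ => z.2 * a z := measurable_snd.mul ham
      exact (hm.stronglyMeasurable.integral_kernel_prod_right' (κ := κ)).measurable.const_mul _
    · filter_upwards [honly, hc] with ω h1 h2
      have h3 : (κ (pst T ξ ω)).real {X ω} = c := h2
      have h4 : ∫ y, y * a (pst T ξ ω, y) ∂(κ (pst T ξ ω)) = ∫ y in {X ω}, y * a (pst T ξ ω, y) ∂(κ (pst T ξ ω)) := by
        symm
        apply setIntegral_eq_integral_of_forall_compl_eq_zero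
        intro y hy
        have h5 : a (pst T ξ ω, y) = 0 := h1 y (by simpa using hy)
        rw [h5, mul_zero]
      rw [h4, integral_singleton, smul_eq_mul]
      show X ω = (c ^ 2)⁻¹ * ((κ (pst T ξ ω)).real {X ω} * (X ω * (κ (pst T ξ ω)).real {X ω}))
      rw [h3]
      field_simp

theorem noAtoms (hC : Con p q φ φ' C r K ε) (hS : Prc μ p q T ξ φ X) [IsProbabilityMeasure μ]
    (hE : Ergodic T μ) (hX : ∀ f : (ℕ → E) → ℝ, Measurable f → ¬ (X =ᵐ[μ] fun ω => f (pst T ξ ω))) :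
    ∀ᵐ ω ∂μ, ∀ x : ℝ, kap μ T ξ X (pst T ξ ω) {x} = 0 := by
  rcases nonatomic_or_past hC hS hE with h | ⟨f, hf, hfX⟩
  · exact h
  · exact absurd hfX (hX f hf)

end Pool.Agent.Helper82.HS
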